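import Pool.Agent.N162.HN.Stm

/-!
# Project HN (helper162), part PEN: a single curve whose intersection with the hypersurface is a part of
the generic fibre
-/

set_option autoImplicit false
set_option linter.unusedSectionVars false

open FF Pool.Agent.W603.LV Pool.Agent.Y184.NT Pool.Agent.N162.BC IntermediateField MvPolynomial
open Pool.Agent.N162.CV (PRel MonicY)
open Pool.Agent.N162.HN

namespace Pool.Agent.N459.HN

section

variable {Ω E : Type} [Field Ω] [Field E] [Algebra Ω E]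

theorem ge_const_zero {v : Place Ω E} {a : Ω} (h : Ge v 1 (algebraMap Ω E a)) : a = 0 := by
  by_contra ha
  rcases h with h | h
  · exact ha ((map_eq_zero _).1 h)
  · rw [v.ord_const ha] at h
    omega

theorem ge_of_sub {v : Place Ω E} {f : E} {a : Ω} (h : Ge v 1 (f - algebraMap Ω E a)) :
    Ge v 0 f := by
  have h1 := (h.mono (by norm_num : (0 : ℤ) ≤ 1)).add (Ge.const (P := v) a)
  rwa [sub_add_cancel] at h1

theorem const_eq {v : Place Ω E} {a b : Ω} {f : E} (ha : Ge v 1 (f - algebraMap Ω E a))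
    (hb : Ge v 1 (f - algebraMap Ω E b)) : a = b := by
  have h1 : Ge v 1 (algebraMap Ω E (a - b)) := by
    have := hb.sub ha
    convert this using 1
    rw [map_sub]; ring
  exact sub_eq_zero.1 (ge_const_zero h1)

theorem ge_aeval_sub {ι : Type} {v : Place Ω E} {Y : ι → E} {y : ι → Ω}
    (h : ∀ i, Ge v 1 (Y i - algebraMap Ω E (y i))) (P : MvPolynomial ι Ω) :
    Ge v 1 (aeval Y P - algebraMap Ω E (eval y P)) := by
  induction P using MvPolynomial.induction_on with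
  | C a =>
    rw [aeval_C, eval_C, sub_self]
    exact Ge.zero
  | add P Q hP hQ =>
    rw [map_add, map_add, map_add]
    have h1 := hP.add hQ
    convert h1 using 1
    ring
  | mul_X P i hP =>
    rw [map_mul, map_mul, map_mul, aeval_X, eval_X]
    have h1 := hP.mul (ge_of_sub (h i))
    have h2 := (Ge.const (P := v) (eval y P)).mul (h i)
    rw [add_zero] at h1
    rw [zero_add] at h2
    have h3 := Ge.add h1 h2
    convert h3 using 1
    ring

end

section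

variable {n : ℕ} {Ω : Type} [Field Ω]

theorem on_zero {C : Crv n Ω} {p : Fin (n + 2) → Ω} (h : C.On p) : p 0 = 1 := by
  obtain ⟨v, hv⟩ := h
  have h1 := hv 0
  rw [C.good.one, ← map_one (algebraMap Ω C.E), ← map_sub] at h1
  exact (sub_eq_zero.1 (ge_const_zero h1)).symm

theorem on_eval {C : Crv n Ω} {p : Fin (n + 2) → Ω} (h : C.On p) {P : MvPolynomial (Fin (n + 2)) Ω}
    (hP : aeval C.X P = 0) : eval p P = 0 := by
  obtain ⟨v, hv⟩ := h
  have h1 := ge_aeval_sub hv P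
  rw [hP, zero_sub] at h1
  have h2 := h1.neg
  rw [neg_neg] at h2
  exact ge_const_zero h2

theorem exists_on [IsAlgClosed Ω] [CharZero Ω] (C : Crv n Ω) (a : Ω) : ∃ p, C.On p ∧ p 1 = a := by
  have ht : Transcendental Ω (C.X 1 - algebraMap Ω C.E a) := by
    intro h
    apply C.good.tr
    have := h.add (isAlgebraic_algebraMap a)
    rwa [sub_add_cancel] at this
  obtain ⟨S, hS, -, hsum⟩ := zeros (k := Ω) ht
  have hfin := IsFF.finite (k := Ω) ht
  have hpos : 0 < Module.finrank Ω⟮C.X 1 - algebraMap Ω C.E a⟯ C.E := Module.finrank_pos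
  obtain ⟨v, hv⟩ : S.Nonempty := by
    rw [Finset.nonempty_iff_ne_empty]
    rintro rfl
    simp only [Finset.sum_empty] at hsum
    omega
  have h1 : Ge v 1 (C.X 1 - algebraMap Ω C.E a) := Or.inr ((hS v).1 hv)
  have h2 : ∀ i, Ge v 0 (C.X i) := C.good.fin v (ge_of_sub h1)
  choose p hp using fun i => exists_const v (h2 i)
  exact ⟨p, ⟨v, hp⟩, const_eq (hp 1) h1⟩

theorem inf_on [IsAlgClosed Ω] [CharZero Ω] (C : Crv n Ω) : {p | C.On p}.Infinite := by
  choose p hp hp1 using exists_on C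
  refine Set.infinite_of_injective_forall_mem (f := p) (fun a b hab => ?_) hp
  rw [← hp1 a, ← hp1 b, hab]

theorem comp_eq {R : Type} (Y : Fin (n + 2) → R) (l : Fin n) :
    Y ∘ ![1, l.succ.succ] = ![Y 1, Y l.succ.succ] := by
  funext k
  fin_cases k <;> rfl

/-- the conjugates of the components are components -/
theorem galois (hCONJ : StCONJ) (hINF : StINF) (hISO : StISO) [IsAlgClosed Ω] [CharZero Ω] {r : ℕ}
    (C : Fin r → Crv n Ω) (A : Fin n → MvPolynomial (Fin 2) Ω)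
    (hA : ∀ i l, aeval ![(C i).X 1, (C i).X l.succ.succ] (A l) = 0)
    (hcov : ∀ p : Fin (n + 2) → Ω, p 0 = 1 → (∀ l : Fin n, eval ![p 1, p l.succ.succ] (A l) = 0) →
      ∃ i, (C i).On p)
    (τ : Ω ≃+* Ω) (hτ : ∀ l, map (τ : Ω →+* Ω) (A l) = A l) (i : Fin r) :
    ∃ j, (C j).deg = (C i).deg ∧ (∀ p, (C j).On (fun k => τ (p k)) ↔ (C i).On p) ∧
      ∀ P : MvPolynomial (Fin (n + 2)) Ω,
        aeval (C j).X (map (τ : Ω →+* Ω) P) = 0 ↔ aeval (C i).X P = 0 := by
  obtain ⟨C', hd, hon, hP⟩ := hCONJ n Ω (C i) τ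
  have h1 : ∀ l : Fin n, aeval C'.X (rename (![1, l.succ.succ] : Fin 2 → Fin (n + 2)) (A l)) = 0 := by
    intro l
    have h2 := (hP (rename (![1, l.succ.succ] : Fin 2 → Fin (n + 2)) (A l))).2
      (by rw [aeval_rename, comp_eq]; exact hA i l)
    rwa [map_rename, hτ l] at h2
  have h3 : ∀ p, C'.On p → ∃ j, (C j).On p := by
    intro p hp
    refine hcov p (on_zero hp) fun l => ?_
    have := on_eval hp (h1 l)
    rwa [eval_rename, comp_eq] at this
  obtain ⟨j, hj⟩ : ∃ j, {p | C'.On p ∧ (C j).On p}.Infinite := by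
    by_contra hcon
    push Not at hcon
    have h4 : (⋃ j, {p | C'.On p ∧ (C j).On p}).Finite :=
      Set.finite_iUnion fun j => hcon j
    refine inf_on C' (h4.subset ?_)
    intro p hp
    obtain ⟨j, hj⟩ := h3 p hp
    exact Set.mem_iUnion.2 ⟨j, hp, hj⟩
  have hj' : {p | (C j).On p ∧ C'.On p}.Infinite := by
    refine hj.mono ?_
    rintro p ⟨h4, h5⟩
    exact ⟨h5, h4⟩
  have h6 := hISO n Ω C' (C j) (fun P => ⟨hINF n Ω C' (C j) hj P, hINF n Ω (C j) C' hj' P⟩)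
  refine ⟨j, h6.1.symm.trans hd, fun p => (h6.2 _).symm.trans (hon p), fun P => ?_⟩
  rw [← hP P]
  exact ⟨hINF n Ω (C j) C' hj' _, hINF n Ω C' (C j) hj _⟩

end

theorem trdeg_alg {k E K : Type} [Field k] [Field E] [Field K] [Algebra k E] [Algebra k K]
    [Algebra E K] [IsScalarTower k E K] [Algebra.IsAlgebraic E K] :
    Algebra.trdeg k K = Algebra.trdeg k E := by
  rw [← trdeg_add_eq k E (A := K)]
  have h1 : Algebra.trdeg E K = 0 := by
    rw [trdeg_eq_zero_iff]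
    infer_instance
  rw [h1, add_zero]

/-- transitivity of the Galois group on the embeddings -/
theorem trans {L K Ω : Type} [Field L] [CharZero L] [Field K] [Algebra L K] [FiniteDimensional L K]
    [Field Ω] [Algebra L Ω] [IsAlgClosed Ω] [Algebra.IsAlgebraic L Ω] (σ σ' : K →ₐ[L] Ω) :
    ∃ τ : Ω ≃ₐ[L] Ω, ∀ b, τ (σ b) = σ' b := by
  have : IsAlgClosure L Ω := ⟨inferInstance, inferInstance⟩
  have : Normal L Ω := IsAlgClosure.normal L Ω
  obtain ⟨α, hα⟩ := Field.exists_primitive_element L K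
  have h1 : IsConjRoot L (σ' α) (σ α) := by
    unfold IsConjRoot
    rw [minpoly.algHom_eq σ σ.injective, minpoly.algHom_eq σ' σ'.injective]
  obtain ⟨τ, hτ⟩ := isConjRoot_iff_exists_algEquiv.1 h1
  have key : ∀ b ∈ L⟮α⟯, τ (σ b) = σ' b := by
    intro b hb
    induction hb using IntermediateField.adjoin_induction with
    | mem x hx =>
      rw [Set.mem_singleton_iff.1 hx]
      exact hτ
    | algebraMap c => rw [σ.commutes, σ'.commutes, τ.commutes]
    | add x y _ _ hx hy => rw [map_add, map_add, map_add, hx, hy]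
    | inv x _ hx => rw [map_inv₀, map_inv₀, map_inv₀, hx]
    | mul x y _ _ hx hy => rw [map_mul, map_mul, map_mul, hx, hy]
  exact ⟨τ, fun b => key b (by rw [hα]; exact IntermediateField.mem_top)⟩

section main

variable {n : ℕ} {L K Ω : Type} [Field L] [Algebra ℂ L] [Field K] [Algebra ℂ K] [Algebra L K]
  [IsScalarTower ℂ L K] [Field Ω] [Algebra ℂ Ω] [Algebra L Ω] [IsScalarTower ℂ L Ω]

/-- the homomorphism over `L` -/
def toL (σ : K →ₐ[ℂ] Ω) (h : Fix L σ) : K →ₐ[L] Ω :=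
  { (σ : K →+* Ω) with commutes' := h }

theorem toL_apply (σ : K →ₐ[ℂ] Ω) (h : Fix L σ) (b : K) : toL σ h b = σ b := rfl

/-- composition with an automorphism -/
noncomputable def cmpl (τ : Ω ≃ₐ[L] Ω) (σ : K →ₐ[ℂ] Ω) : K →ₐ[ℂ] Ω :=
  ((τ.restrictScalars ℂ : Ω ≃ₐ[ℂ] Ω) : Ω →ₐ[ℂ] Ω).comp σ

theorem cmpl_apply (τ : Ω ≃ₐ[L] Ω) (σ : K →ₐ[ℂ] Ω) (b : K) : cmpl τ σ b = τ (σ b) := rfl

theorem cmpl_fix (τ : Ω ≃ₐ[L] Ω) {σ : K →ₐ[ℂ] Ω} (h : Fix L σ) : Fix L (cmpl τ σ) := by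
  intro a
  rw [cmpl_apply, h a, τ.commutes]

theorem pt_cmpl (x : Fin (n + 2) → K) (τ : Ω ≃ₐ[L] Ω) (σ : K →ₐ[ℂ] Ω) :
    pt x (cmpl τ σ) = fun j => τ (pt x σ j) := rfl

theorem fix_finite [FiniteDimensional L K] : {σ : K →ₐ[ℂ] Ω | Fix L σ}.Finite := by
  have : Finite (K →ₐ[L] Ω) := inferInstance
  have h1 : Finite {σ : K →ₐ[ℂ] Ω | Fix L σ} := by
    refine Finite.of_injective (fun σ : {σ : K →ₐ[ℂ] Ω | Fix L σ} => toL σ.1 σ.2) ?_
    intro σ σ' h
    apply Subtype.ext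
    ext b
    have := DFunLike.congr_fun h b
    exact this
  exact Set.toFinite _

theorem fix_card [CharZero L] [FiniteDimensional L K] [IsAlgClosed Ω] :
    {σ : K →ₐ[ℂ] Ω | Fix L σ}.ncard ≤ Module.finrank L K := by
  rw [← AlgHom.card L K Ω, ← Nat.card_eq_fintype_card, ← Nat.card_coe_set_eq]
  refine Nat.card_le_card_of_injective (fun σ : {σ : K →ₐ[ℂ] Ω | Fix L σ} => toL σ.1 σ.2) ?_
  intro σ σ' h
  apply Subtype.ext
  ext b
  have := DFunLike.congr_fun h b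
  exact this

end main

theorem pen_ (hCONF : StCONF) (hHOM : StHOM) (hCONJ : StCONJ) (hINF : StINF) (hISO : StISO) :
    StPEN := by
  classical
  intro n L K Ω _ _ _ _ _ _ _ _ _ _ _ _ _ F d m N hn hF hFh hmd hmN hNd hFe x hx0 hxF hgen htrK hrel hfr
    hnull A hA
  have hcL : CharZero L := charZero_of_injective_algebraMap (algebraMap ℂ L).injective
  have hcΩ : CharZero Ω := charZero_of_injective_algebraMap (algebraMap ℂ Ω).injective
  -- the cycle
  let S : Finset (K →ₐ[ℂ] Ω) := (fix_finite (L := L) (K := K) (Ω := Ω)).toFinset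
  have hS : ∀ σ, σ ∈ S ↔ Fix L σ := fun σ => by
    simp only [S, Set.Finite.mem_toFinset, Set.mem_ofPred_eq]
  let f : (K →ₐ[ℂ] Ω) →₀ ℤ := Finsupp.onFinset S (fun σ => if Fix L σ then 1 else 0) (by
    intro σ hσ
    rw [hS]
    by_contra hcon
    exact hσ (if_neg hcon))
  have hf : ∀ σ, f σ = if Fix L σ then 1 else 0 := fun σ => rfl
  have hf1 : ∀ σ, Fix L σ → f σ = 1 := fun σ h => by rw [hf, if_pos h]
  have hf0 : ∀ σ, f σ ≠ 0 → Fix L σ := by
    intro σ h
    by_contra hcon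
    exact h (by rw [hf, if_neg hcon])
  have hfnull : NullTrace n f := by
    refine hnull f fun σ => ?_
    by_cases h : Fix L σ
    · exact Or.inl ⟨hf1 σ h, h⟩
    · exact Or.inr ⟨by rw [hf, if_neg h], h⟩
  have hfcard : f.support.card < (N + 1) * (m + 2 - N) := by
    refine lt_of_le_of_lt ?_ hfr
    refine le_trans ?_ (fix_card (L := L) (K := K) (Ω := Ω))
    rw [← Set.ncard_coe_finset]
    refine Set.ncard_le_ncard ?_ fix_finite
    intro σ hσ
    exact hf0 σ (Finsupp.mem_support_iff.1 hσ)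
  -- an embedding
  obtain ⟨σ0, hσ0⟩ : ∃ σ : K →ₐ[ℂ] Ω, Fix L σ := by
    let σL : K →ₐ[L] Ω := IsAlgClosed.lift
    exact ⟨σL.restrictScalars ℂ, fun a => σL.commutes a⟩
  -- transcendence degree
  have htrL : Algebra.trdeg ℂ K = Algebra.trdeg ℂ L := trdeg_alg
  have htrΩ : Algebra.trdeg ℂ Ω = n := by
    rw [← htrK, htrL]
    exact trdeg_alg
  -- the equations
  have hinj : Function.Injective (algebraMap L Ω) := (algebraMap L Ω).injective
  let A' : Fin n → MvPolynomial (Fin 2) Ω := fun l => map (algebraMap L Ω) (A l)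
  have hdeg : ∀ l, (A' l).totalDegree = (A l).totalDegree := by
    intro l
    simp only [A', totalDegree, support_map_of_injective _ hinj]
  have hA' : ∀ l, MonicY (A' l) ∧ 1 ≤ (A' l).totalDegree ∧ (A' l).totalDegree ≤ N := by
    intro l
    obtain ⟨h1, h2, h3, -⟩ := hA l
    refine ⟨?_, by rw [hdeg]; exact h2, by rw [hdeg]; exact h3⟩
    unfold MonicY
    rw [hdeg]
    simp only [A', coeff_map]
    rw [Ne, map_eq_zero]
    exact h1
  have hAσ : ∀ σ : K →ₐ[ℂ] Ω, Fix L σ → ∀ l : Fin n, eval ![pt x σ 1, pt x σ l.succ.succ] (A' l) = 0 := by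
    intro σ hσ l
    have h1 := congrArg (toL σ hσ) (hA l).2.2.2
    rw [map_zero] at h1
    simp only [A']
    rw [eval_map, ← aeval_def]
    have h2 : toL σ hσ (aeval ![x 1, x l.succ.succ] (A l)) =
        aeval (fun i => toL σ hσ ((![x 1, x l.succ.succ] : Fin 2 → K) i)) (A l) := by
      rw [← comp_aeval_apply]
    rw [h2] at h1
    rw [← h1]
    congr 2
    funext i
    fin_cases i <;> rfl
  obtain ⟨κ, r, C, cyc, c, hCi, hcov, hdis, hcf, hcp, hconf, hcyp, htri⟩ :=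
    hCONF n K Ω F d m N hn hF hFh hmd hmN hNd hFe x hx0 hxF hgen htrK htrΩ hrel f hfnull hfcard A' hA'
      (fun σ hσ => hAσ σ (hf0 σ hσ))
  -- the values of c
  have hc1 : ∀ p, c p ≠ 0 → ∃ σ : K →ₐ[ℂ] Ω, Fix L σ ∧ p = pt x σ := by
    intro p hp
    obtain ⟨σ, rfl⟩ := hcp p hp
    rw [hcf] at hp
    exact ⟨σ, hf0 σ hp, rfl⟩
  have hc2 : ∀ σ : K →ₐ[ℂ] Ω, Fix L σ → c (pt x σ) = 1 := fun σ hσ => by rw [hcf, hf1 σ hσ]
  have hc2' : ∀ σ : K →ₐ[ℂ] Ω, Fix L σ → c (pt x σ) ≠ 0 := fun σ hσ => by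
    rw [hc2 σ hσ]; exact one_ne_zero
  have hc0 : c ≠ 0 := by
    intro h
    exact hc2' σ0 hσ0 (by rw [h]; rfl)
  have hc3 : ∀ p, c p ≠ 0 → c p = 1 := by
    intro p hp
    obtain ⟨σ, hσ, rfl⟩ := hc1 p hp
    exact hc2 σ hσ
  -- the Galois action
  have hmapA : ∀ (τ : Ω ≃ₐ[L] Ω) (l : Fin n), map ((τ : Ω ≃+* Ω) : Ω →+* Ω) (A' l) = A' l := by
    intro τ l
    simp only [A']
    rw [MvPolynomial.map_map]
    have h1 : ((τ : Ω ≃+* Ω) : Ω →+* Ω).comp (algebraMap L Ω) = algebraMap L Ω :=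
      RingHom.ext fun a => τ.commutes a
    rw [h1]
  have hgal := fun (τ : Ω ≃ₐ[L] Ω) => galois hCONJ hINF hISO C A' hCi hcov (τ : Ω ≃+* Ω) (hmapA τ)
  choose π hπd hπo hπP using hgal
  have hπinj : ∀ τ, Function.Injective (π τ) := by
    intro τ i i' h
    by_contra hne
    obtain ⟨P, hP1, hP2⟩ := hdis i i' hne
    apply hP2
    rw [← hπP τ i' P, ← h]
    exact (hπP τ i P).2 hP1
  have hπsurj : ∀ τ, Function.Surjective (π τ) := fun τ => Finite.surjective_of_injective (hπinj τ)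
  have hcτ : ∀ (τ : Ω ≃ₐ[L] Ω) (p : Fin (n + 2) → Ω), c p ≠ 0 → c (fun j => τ (p j)) ≠ 0 := by
    intro τ p hp
    obtain ⟨σ, hσ, rfl⟩ := hc1 p hp
    rw [← pt_cmpl]
    exact hc2' _ (cmpl_fix τ hσ)
  have hcnt : ∀ (τ : Ω ≃ₐ[L] Ω) (i : Fin r), cnt c (fun i p => (C i).On p) (π τ i) =
      cnt c (fun i p => (C i).On p) i := by
    intro τ i
    unfold cnt
    have himg : {p | c p ≠ 0 ∧ (C (π τ i)).On p} =
        (fun (p : Fin (n + 2) → Ω) (j : Fin (n + 2)) => τ (p j)) '' {p | c p ≠ 0 ∧ (C i).On p} := by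
      ext q
      constructor
      · rintro ⟨h1, h2⟩
        have h3 : (fun j => τ ((fun j => τ.symm (q j)) j)) = q := by
          funext j
          exact τ.apply_symm_apply _
        refine ⟨fun j => τ.symm (q j), ⟨hcτ τ.symm q h1, ?_⟩, h3⟩
        rw [← hπo τ i]
        have h4 := h3.symm ▸ h2
        exact h4
      · rintro ⟨p, ⟨h1, h2⟩, rfl⟩
        exact ⟨hcτ τ p h1, (hπo τ i p).2 h2⟩
    rw [himg]
    refine Set.ncard_image_of_injective _ ?_
    intro p p' h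
    funext j
    exact τ.injective (congrFun h j)
  -- homogeneity
  have hhom : ∀ p q, c p ≠ 0 → c q ≠ 0 →
      {i | (C i).deg * N < cnt c (fun i p => (C i).On p) i ∧ (C i).On p}.ncard =
        {i | (C i).deg * N < cnt c (fun i p => (C i).On p) i ∧ (C i).On q}.ncard := by
    intro p q hp hq
    obtain ⟨σ, hσ, rfl⟩ := hc1 p hp
    obtain ⟨σ', hσ', rfl⟩ := hc1 q hq
    obtain ⟨τ, hτ⟩ := trans (toL σ hσ) (toL σ' hσ')
    have hpq : (fun j => τ (pt x σ j)) = pt x σ' := funext fun j => hτ (x j)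
    have himg : {i | (C i).deg * N < cnt c (fun i p => (C i).On p) i ∧ (C i).On (pt x σ')} =
        π τ '' {i | (C i).deg * N < cnt c (fun i p => (C i).On p) i ∧ (C i).On (pt x σ)} := by
      ext j
      constructor
      · rintro ⟨h1, h2⟩
        obtain ⟨i, rfl⟩ := hπsurj τ j
        rw [hπd, hcnt] at h1
        rw [← hpq] at h2
        exact ⟨i, ⟨h1, (hπo τ i (pt x σ)).1 h2⟩, rfl⟩
      · rintro ⟨i, ⟨h1, h2⟩, rfl⟩
        refine ⟨?_, ?_⟩
        · rw [hπd, hcnt]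
          exact h1
        · rw [← hpq]
          exact (hπo τ i (pt x σ)).2 h2
    rw [himg]
    exact (Set.ncard_image_of_injective _ (hπinj τ)).symm
  obtain ⟨J, hJ, hJN, hJu, hJe, hJc⟩ := hHOM n r Ω κ m N d c (fun i => (C i).deg) (fun i p => (C i).On p)
    cyc A' hconf hc0 hc3 hhom
  obtain ⟨i, ⟨hiJ, -⟩, -⟩ := hJu (pt x σ0) (hc2' σ0 hσ0)
  have hdegN : (C i).deg ≤ N :=
    (Finset.single_le_sum (f := fun i => (C i).deg) (fun _ _ => Nat.zero_le _) hiJ).trans hJN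
  obtain ⟨p, hp, hpi⟩ := hJe i hiJ
  have hcyi : cyc i p ≠ 0 := hconf.hcy i p hdegN hp hpi
  have h3 : cmp Ω F (C i).X ≠ 0 ∧
      ∀ σ : K →ₐ[ℂ] Ω, cyc i (pt x σ) = mu (C i).X (cmp Ω F (C i).X) (pt x σ) := by
    rcases htri i with h | ⟨-, h⟩ | h
    · omega
    · exact absurd (by rw [h]; rfl) hcyi
    · exact h
  refine ⟨C i, hdegN, h3.1, ?_, ?_, ?_⟩
  · obtain ⟨σ, hσ, rfl⟩ := hc1 p hp
    exact ⟨σ, hσ, hpi⟩
  · intro σ hσ
    rw [← h3.2 σ] at hσ ⊢
    obtain ⟨h4, h5⟩ := hJc i hiJ _ hσ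
    refine ⟨h4, ?_⟩
    rw [hcf] at h5
    exact hf0 σ h5
  · intro σ hσ hon τ honτ P hP
    have h4 : π τ i ∈ J := by
      rw [hJ]
      show (C (π τ i)).deg * N < _
      rw [hπd, hcnt]
      exact (hJ i).1 hiJ
    have h5 : (C (π τ i)).On (fun j => τ (pt x σ j)) := (hπo τ i _).2 hon
    obtain ⟨j0, -, hj0⟩ := hJu (fun j => τ (pt x σ j)) (hcτ τ _ (hc2' σ hσ))
    have h6 : π τ i = i := (hj0 _ ⟨h4, h5⟩).trans (hj0 _ ⟨hiJ, honτ⟩).symm
    have h7 := (hπP τ i P).2 hP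
    rw [h6] at h7
    exact h7

end Pool.Agent.N459.HN
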